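import Pool.Agent.TH646.LV.Level
import Pool.Agent.Q319.DR.One

/-!
# Level of distribution `N exp (-K (log log N) ^ 2)` for all residues at the multiples of almost all real numbers

* For `0 < θ < 1` there is `κ₀ > 0` such that for all real `y ∈ [N ^ (1 - θ), 2 N ^ (1 - θ)]` outside a set of measure
  at most `N ^ (1 - θ - κ₀)` ALL residues `a` in the windows of radius `log ^ A N` around the multiples `k y`,
  `k ≤ N ^ θ`, with at most `N ^ θ / log ^ U N` exceptional `k`, have the level of distribution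
  `N exp (-K (log log N) ^ 2)`, with arbitrary weights of the moduli.
* For almost every real `α > 0` ALL residues `a` in the windows of radius `log ^ A N` around `α N`, where `N = b k`,
  have this level of distribution, for ALL large `k`; here `b` is an arbitrary sequence of integers with
  `b k ≥ exp (k ^ δ)`, for instance `b k = 2 ^ k`.

From Mathlib: `ArithmeticFunction.vonMangoldt`: the function `Λ`; `Nat.totient`: Euler's function; `volume`: the
Lebesgue measure; `∀ᵐ α : ℝ`: for almost all real `α`; `∀ᶠ k in atTop`: for all large `k`.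
The bound for almost all residues is from the starting files (`Pool.Agent.TH646.LV.lv_fam`), as well as the count of the
elements of arbitrary sets of integers in intervals at multiples of real numbers (`Pool.Agent.H438R2.DL`).
-/

set_option autoImplicit false

namespace Pool.Agent.Results.MP_00e23e_nt.ResiduesAtRealMultiples

open Finset MeasureTheory Filter

/-- `ψ(y; q, a)`: the sum of `Λ(n)` over the `n ≤ y` with `n ≡ a (mod q)`. -/
noncomputable def psi (y q a : ℕ) : ℝ :=
  ∑ n ∈ (Icc 1 y).filter (fun n => n ≡ a [MOD q]), ArithmeticFunction.vonMangoldt n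

/-- The sum of `λ(q) (ψ(y; q, a) - y / φ(q))` over the `q ≤ Q` coprime to `a`. -/
noncomputable def weighted (lam : ℕ → ℝ) (Q y a : ℕ) : ℝ :=
  ∑ q ∈ (Icc 1 Q).filter (fun q => a.Coprime q), lam q * (psi y q a - (y : ℝ) / Nat.totient q)

/-- The level `N exp (-K (log log N) ^ 2)`, rounded down. -/
noncomputable def level (K N : ℕ) : ℕ := ⌊(N : ℝ) * Real.exp (-(K * Real.log (Real.log N) ^ 2))⌋₊

/-- The residue `a` is good for the systems of coefficients `lam l`: the weighted sums over the moduli up to the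
level `level K N` are at most `N / log ^ U N`, for all `l` and all `y ≤ B N`. -/
def Good (B U K N : ℕ) {L : ℕ} (lam : Fin L → ℕ → ℝ) (a : ℕ) : Prop :=
  ∀ l, ∀ y ≤ B * N, |weighted (lam l) (level K N) y a| ≤ N / Real.log N ^ U

open Classical in
/-- The number of the `k` with `1 ≤ k ≤ x` for which not all positive integers `a` at a distance of at most `w`
from `k y` have the property `P`. -/
noncomputable def exceptions (x y w : ℝ) (P : ℕ → Prop) : ℕ :=
  ((Icc 1 ⌊x⌋₊).filter (fun k : ℕ => ∃ a : ℕ, 0 < a ∧ |(a : ℝ) - k * y| ≤ w ∧ ¬ P a)).card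

open Pool.Agent.H373R2.T7 in
lemma few (B B' T U V : ℕ) : ∃ K N₀ : ℕ, ∀ N : ℕ, N₀ ≤ N →
    ∀ L : ℕ, (L : ℝ) ≤ Real.log N ^ T → ∀ lam : Fin L → ℕ → ℝ, (∀ l q, |lam l q| ≤ Real.log N ^ T) →
    ∀ S : Finset ℕ, S ⊆ Icc 1 (B' * N) → (∀ a ∈ S, ¬ Good B U K N lam a) → (S.card : ℝ) ≤ N / Real.log N ^ V := by
  classical
  obtain ⟨K, N₀, h0⟩ := Pool.Agent.TH646.LV.lv_fam 1 (B + B') 0 T (T + U + (V + 1))
  obtain ⟨N₁, h1⟩ := (tendsto_natCast_atTop_atTop.eventually (Pool.Agent.Q319.DR.ev_log (B' + 1))).exists_forall_of_atTop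
  refine ⟨K, N₀ + N₁ + 3, fun N hN L hL lam hlam S hS hSb => ?_⟩
  have hlogB := h1 N (by omega)
  have hB'0 : (0 : ℝ) ≤ B' := Nat.cast_nonneg _
  have hlog1 : 1 ≤ Real.log N := by linarith
  have hlog0 : 0 < Real.log N := by linarith
  have hN0 : (0 : ℝ) < N := by exact_mod_cast (by omega : 0 < N)
  rcases Nat.eq_zero_or_pos B' with hB' | hB'
  · subst hB'
    rw [zero_mul, Icc_eq_empty (by norm_num), subset_empty] at hS
    rw [hS, card_empty, Nat.cast_zero]
    positivity
  have h2 : ∀ l : Fin L, ((S.filter (fun m => ∃ y ≤ B * N,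
      N / Real.log N ^ U < |weighted (lam l) (level K N) y m|)).card : ℝ) ≤
        ((B' * N : ℕ) : ℝ) / Real.log N ^ (T + U + (V + 1)) := by
    intro l
    refine h0 N (by omega) (B' * N) (fun m => (m : ℤ)) (fun m hm => ?_) ?_ (lam l) (hlam l) (level K N)
      (Nat.floor_le (by positivity)) _ ((filter_subset _ _).trans hS) ?_
    · rw [mem_Icc] at hm
      rw [abs_of_nonneg (Int.natCast_nonneg m)]
      have h3 : m ≤ (B + B') * N := hm.2.trans (Nat.mul_le_mul_right _ (by omega))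
      exact_mod_cast h3
    · rw [Pool.Agent.Q319.DR.energy_id]
      have h3 : (N : ℝ) ≤ ((B' * N : ℕ) : ℝ) := by exact_mod_cast Nat.le_mul_of_pos_left N hB'
      have h4 : (0 : ℝ) ≤ ((B' * N : ℕ) : ℝ) := Nat.cast_nonneg _
      calc ((B' * N : ℕ) : ℝ) * N ≤ ((B' * N : ℕ) : ℝ) * ((B' * N : ℕ) : ℝ) := by gcongr
        _ = _ := by ring
    · intro m hm
      obtain ⟨hmS, y, hy, h4⟩ := mem_filter.1 hm
      have hm1 := mem_Icc.1 (hS hmS)
      refine ⟨by exact_mod_cast hm1.1, y, hy.trans (Nat.mul_le_mul_right _ (by omega)), lt_of_le_of_lt ?_ h4⟩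
      apply div_le_div_of_nonneg_left (Nat.cast_nonneg _) (by positivity)
      exact pow_le_pow_right₀ hlog1 (by omega)
  have hcov : S ⊆ (univ : Finset (Fin L)).biUnion (fun l => S.filter (fun m => ∃ y ≤ B * N,
      N / Real.log N ^ U < |weighted (lam l) (level K N) y m|)) := by
    intro m hm
    have h3 := hSb m hm
    unfold Good at h3
    push Not at h3
    obtain ⟨l, y, hy, h4⟩ := h3
    rw [mem_biUnion]
    exact ⟨l, mem_univ _, mem_filter.2 ⟨hm, y, hy, h4⟩⟩
  calc (S.card : ℝ) ≤ (∑ l : Fin L, (S.filter (fun m => ∃ y ≤ B * N,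
      N / Real.log N ^ U < |weighted (lam l) (level K N) y m|)).card : ℕ) := by
        exact_mod_cast (card_le_card hcov).trans card_biUnion_le
    _ ≤ ∑ _l : Fin L, ((B' * N : ℕ) : ℝ) / Real.log N ^ (T + U + (V + 1)) := by
        push_cast
        exact sum_le_sum fun l _ => by simpa using h2 l
    _ = L * (((B' * N : ℕ) : ℝ) / Real.log N ^ (T + U + (V + 1))) := by
        rw [sum_const, card_univ, Fintype.card_fin, nsmul_eq_mul]
    _ ≤ Real.log N ^ T * (((B' * N : ℕ) : ℝ) / Real.log N ^ (T + U + (V + 1))) :=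
        mul_le_mul_of_nonneg_right hL (by positivity)
    _ = B' * N / (Real.log N ^ U * (Real.log N ^ V * Real.log N)) := by
        rw [pow_add, pow_add, pow_succ]
        push_cast
        field_simp
    _ ≤ N / Real.log N ^ V := by
        rw [div_le_div_iff₀ (by positivity) (by positivity)]
        have h5 : 1 ≤ Real.log N ^ U := one_le_pow₀ hlog1
        calc B' * N * Real.log N ^ V ≤ Real.log N * N * Real.log N ^ V := by
              gcongr
              linarith
          _ = N * (1 * (Real.log N ^ V * Real.log N)) := by ring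
          _ ≤ N * (Real.log N ^ U * (Real.log N ^ V * Real.log N)) := by gcongr

/-- * Let `0 < θ < 1`. There is `κ₀ > 0` such that for all `A`, `B`, `T`, `U` there is `K` such that the following holds
  for all large `N`. Let at most `log ^ T N` systems of coefficients `λ_l(q)` with `|λ_l(q)| ≤ log ^ T N` be given. There
  is a set `E` of real numbers of measure at most `N ^ (1 - θ - κ₀)` such that for every real number `y` with
  `N ^ (1 - θ) ≤ y ≤ 2 N ^ (1 - θ)` which does not belong to `E`, and all `k ≤ N ^ θ`, with at most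
  `N ^ θ / log ^ U N` exceptions, ALL integers `a > 0` with `|a - k y| ≤ log ^ A N` satisfy: for all `l` and all
  `y ≤ B N` the sum of `λ_l(q) (ψ(y; q, a) - y / φ(q))` over the `q ≤ N exp (-K (log log N) ^ 2)` coprime to `a` has
  absolute value at most `N / log ^ U N`.
* Let `A`, `B`, `D`, `T`, `U` and `δ > 0` be given. There is `K` with the following property. Let `b` be a sequence of
  natural numbers with `b k ≥ exp (k ^ δ)` for all large `k`, and let for every `N` at most `log ^ T N` systems of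
  coefficients bounded by `log ^ T N` be given. For almost every real number `α` with `0 < α ≤ D` and all large `k` ALL
  integers `a > 0` with `|a - α N| ≤ log ^ A N`, where `N = b k`, have this property. -/
theorem result :
    (∀ θ : ℝ, 0 < θ → θ < 1 → ∃ κ₀ : ℝ, 0 < κ₀ ∧ ∀ A B T U : ℕ, ∃ K N₀ : ℕ, ∀ N : ℕ, N₀ ≤ N →
      ∀ L : ℕ, (L : ℝ) ≤ Real.log N ^ T → ∀ lam : Fin L → ℕ → ℝ, (∀ l q, |lam l q| ≤ Real.log N ^ T) →
      ∃ E : Set ℝ, MeasurableSet E ∧ volume E ≤ ENNReal.ofReal ((N : ℝ) ^ (1 - θ - κ₀)) ∧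
        ∀ y : ℝ, (N : ℝ) ^ (1 - θ) ≤ y → y ≤ 2 * (N : ℝ) ^ (1 - θ) → y ∉ E →
          (exceptions ((N : ℝ) ^ θ) y (Real.log N ^ A) (Good B U K N lam) : ℝ) ≤ (N : ℝ) ^ θ / Real.log N ^ U) ∧
    (∀ (A B D T U : ℕ) (δ : ℝ), 0 < δ → ∃ K : ℕ, ∀ b : ℕ → ℕ, (∀ᶠ k : ℕ in atTop, Real.exp ((k : ℝ) ^ δ) ≤ b k) →
      ∀ (L : ℕ → ℕ) (lam : ∀ N : ℕ, Fin (L N) → ℕ → ℝ), (∀ N, (L N : ℝ) ≤ Real.log N ^ T) →
      (∀ N l q, |lam N l q| ≤ Real.log N ^ T) →
      ∀ᵐ α : ℝ, 0 < α → α ≤ D → ∀ᶠ k : ℕ in atTop,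
        ∀ a : ℕ, 0 < a → |(a : ℝ) - α * b k| ≤ Real.log (b k) ^ A → Good B U K (b k) (lam (b k)) a) := by
  classical
  constructor
  · intro θ hθ hθ1
    obtain ⟨κ₀, hκ₀, h⟩ := Pool.Agent.Q319.DR.mult_one θ hθ hθ1
    refine ⟨κ₀, hκ₀, fun A B T U => ?_⟩
    obtain ⟨N₀, h0⟩ := h A U
    obtain ⟨K, N₁, h1⟩ := few B 4 T U (U + A + 2)
    refine ⟨K, N₀ + N₁, fun N hN L hL lam hlam => ?_⟩
    obtain ⟨E, hE1, hE2, hE3⟩ := h0 N (by omega) (fun a => 0 < a ∧ ¬ Good B U K N lam a)
      (fun S hS hSb => h1 N (by omega) L hL lam hlam S hS fun a ha => (hSb a ha).2)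
    refine ⟨E, hE1, hE2, fun y hy1 hy2 hyE => le_trans ?_ (hE3 y hy1 hy2 hyE)⟩
    unfold exceptions
    apply Nat.cast_le.2
    apply card_le_card
    intro k hk
    rw [mem_filter] at hk ⊢
    obtain ⟨hk1, a, ha0, ha1, ha2⟩ := hk
    exact ⟨hk1, a, ha1, ha0, ha2⟩
  · intro A B D T U δ hδ
    obtain ⟨m, hm⟩ := exists_nat_gt (2 / δ)
    obtain ⟨K, N₁, h1⟩ := few B (D + 1) T U (A + m)
    refine ⟨K, fun b hb L lam hL hlam => ?_⟩
    have h2 := Pool.Agent.Q319.DR.lac_one (fun N a => 0 < a ∧ ¬ Good B U K N (lam N) a) A D m δ hδ hm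
      ⟨N₁, fun N hN S hS hSb => h1 N hN (L N) (hL N) (lam N) (hlam N) S hS fun a ha => (hSb a ha).2⟩ b hb
    filter_upwards [h2] with α hα hα0 hαD
    filter_upwards [hα hα0 hαD] with k hk a ha0 ha1
    by_contra hcon
    exact hk a ha1 ⟨ha0, hcon⟩

end Pool.Agent.Results.MP_00e23e_nt.ResiduesAtRealMultiples
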