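import Mathlib
import Pool.Agent.Q66.LD.Main
import Pool.Agent.Y826.ZG.P2L

/-!
# Beyond the level `1/2` for factorable moduli, in the residue classes of several linear forms

The question asks for a level of distribution `≥ 1/2` with absolute values (and a maximum over the classes) inside
the sum over the moduli. We prove, without any exceptions, the bound `x / (log x) ^ A` for the sum of the ABSOLUTE
VALUES of the errors beyond the level `1/2`, up to `x ^ (43/84 - ε)`, in the following situation.

* The moduli are `W q₁ ⋯ q_K` with `q_j ≤ x ^ (t_j)`, where the product of the `q_j` is squarefree and prime to `W`,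
  and they are counted with arbitrary powers of the number of divisors of `q₁ ⋯ q_K`. The `q_j` with `j` in a set `R`
  of indices are ARBITRARY (they may be primes, say); only the product of their bounds should be at most
  `x ^ (1/3 - ε)`. The other `q_j` are small, `t_j ≤ ε / 1000`; their number is arbitrary. More generally the
  exponents `t` have to satisfy a grouping condition (`GoodT`).
* The residue classes are not the classes of a fixed integer. They are given by `K` arbitrary fixed linear forms
  `a_j n + c_j`, one for each factor: `n ≡ b (mod W)` and `q_j ∣ a_j n + c_j` for all `j` (the forms with different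
  indices may be equal or different).
* The height `y(q) ≤ x` up to which the primes are counted may depend on the modulus in an arbitrary way (so the
  maximum over the heights is inside the sum).

So for instance in the notation of Zhang and Polymath, `∑ |Δ(Λ 1_{n ≤ y(q)}; a (q))| ≪ x (log x)^{-A}` holds for the
classes `a (q)` that arise from several shifts, for moduli `q = r s ≤ x ^ (43/84 - ε)` with an arbitrary `r` of size
up to `x ^ (1/3 - ε)`: such moduli need not be smooth or densely divisible.

The equidistribution theorem with a smooth weight in place of the sharp cut-off (`Pool.Agent.Y826.ZG.s_zz`) is from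
the starting files, where it is an auxiliary result for the study of prime tuples. New are the criterion for the
exponents (`Pool.Agent.Q66.LD.goodT_struct`), the uniformity in the scale, and the passage to sharp cut-offs and
arbitrary heights (`Pool.Agent.Q66.LD.sharp`).
-/

set_option autoImplicit false

open Finset

namespace Pool.Agent.Results.MP_00e23e_nt.SeveralForms

open ArithmeticFunction (vonMangoldt)

/-- The error: the sum of `Λ(n)` over the `n ≤ y` with `n ≡ b (mod W)` and `q j ∣ a j * n + c j` for all `j`, minus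
`ψ(y) / φ(W ∏ q j)`. -/
noncomputable def err {K : ℕ} (a : Fin K → ℕ) (c : Fin K → ℤ) (W b : ℕ) (q : Fin K → ℕ) (y : ℝ) : ℝ :=
  open Classical in
  ∑ n ∈ (Icc 1 ⌊y⌋₊).filter (fun n => n ≡ b [MOD W] ∧ ∀ j, (q j : ℤ) ∣ (a j : ℤ) * (n : ℤ) + c j), vonMangoldt n -
    (1 / (Nat.totient (W * ∏ j, q j) : ℝ)) * ∑ n ∈ Icc 1 ⌊y⌋₊, vonMangoldt n

/-- The tuples `q` with `1 ≤ q j ≤ X ^ (t j)` whose product is squarefree and prime to `W`. -/
noncomputable def box {K : ℕ} (W : ℕ) (t : Fin K → ℝ) (X : ℝ) : Finset (Fin K → ℕ) :=
  open Classical in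
  (Fintype.piFinset (fun j => Icc 1 ⌊X ^ (t j)⌋₊)).filter
    (fun q => Squarefree (∏ j, q j) ∧ W.Coprime (∏ j, q j))

/-- The bound of the question for the tuples with the exponents `t`, in the classes given by the linear forms: for all
`A` and `C`, the sum of the absolute values of the errors up to arbitrary heights `y(q) ≤ X`, with the weights
`d(q₁ ⋯ q_K) ^ C`, is at most `X / (log X) ^ A` if `X` is large. -/
def Bound {K : ℕ} (a : Fin K → ℕ) (c : Fin K → ℤ) (W b : ℕ) (t : Fin K → ℝ) : Prop :=
  ∀ A C : ℕ, ∃ X₀ : ℝ, ∀ X : ℝ, X₀ ≤ X → ∀ y : (Fin K → ℕ) → ℝ, (∀ q, y q ≤ X) →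
    ∑ q ∈ box W t X, (((∏ j, q j).divisors.card : ℕ) : ℝ) ^ C * |err a c W b q (y q)| ≤ X / (Real.log X) ^ A

/-- **Primes in the residue classes of several linear forms, beyond the level `1/2`.** Let `a_j n + c_j` be linear
forms (`a_j ≥ 0` without loss of generality), `W ≥ 1` and `b` prime to `W`, and let all the prime factors of the
numbers `a_j c_j` divide `W` (so `a_j, c_j ≠ 0`).
(1) The bound holds for all exponents `t` which satisfy the grouping condition.
(2) It holds if, for some `ε > 0`, the exponents in some set `R` of indices have a sum of at most `1/3 - ε`, the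
others are at most `ε / 1000`, and the sum of all the exponents is at most `43/84 - ε`. -/
theorem result {K : ℕ} (a : Fin K → ℕ) (c : Fin K → ℤ) (W b : ℕ) (hW : 0 < W) (hb : b.Coprime W)
    (hp : ∀ p : ℕ, p.Prime → ∀ j, (p : ℤ) ∣ (a j : ℤ) * c j → p ∣ W) :
    (∀ t : Fin K → ℝ, (∀ j, 0 ≤ t j) → (∃ δ : ℝ, 0 < δ ∧ Pool.Agent.Y826.Z.GoodT δ t) → Bound a c W b t) ∧
    (∀ ε : ℝ, 0 < ε → ∀ (t : Fin K → ℝ) (R : Finset (Fin K)), (∀ j, 0 ≤ t j) →
      ∑ j ∈ R, t j ≤ 1 / 3 - ε → (∀ j, j ∉ R → t j ≤ ε / 1000) → ∑ j, t j ≤ 43 / 84 - ε →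
      Bound a c W b t) := by
  have main : ∀ t : Fin K → ℝ, (∀ j, 0 ≤ t j) → (∃ δ : ℝ, 0 < δ ∧ Pool.Agent.Y826.Z.GoodT δ t) →
      Bound a c W b t := by
    intro t ht hG A C
    classical
    have hyp : Pool.Agent.Y826.ZG.Hyp (fun j => ((a j : ℤ), c j)) W b := by
      refine ⟨hW, hb, fun p hpp hpW j hd => hpW (hp p hpp j ?_), fun p hpp hpW j hd => hpW (hp p hpp j ?_)⟩
      · exact Dvd.dvd.mul_right hd _
      · exact Dvd.dvd.mul_left hd _
    obtain ⟨bq, hbq⟩ := Pool.Agent.Y826.ZG.P2L.exists_Cls a c W b hW (by
      intro p hpp hpW j hd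
      exact hpW (hp p hpp j (Dvd.dvd.mul_right (by exact_mod_cast hd) _)))
    obtain ⟨X₀, hX₀⟩ := Filter.eventually_atTop.1 (Pool.Agent.Q66.LD.sharp hyp ht hG hbq A C)
    refine ⟨X₀, fun X hX y hy => ?_⟩
    refine le_trans (le_of_eq ?_) (hX₀ X hX y hy)
    refine Finset.sum_congr ?_ ?_
    · unfold box Pool.Agent.Q66.LD.TT
      refine Finset.filter_congr fun q _ => ?_
      rw [Pool.Agent.Y826.ZG.sqf_iff hW]
      unfold Pool.Agent.Y826.Z.Pr
      tauto
    · intro q hq
      have hsq : Squarefree (Pool.Agent.Y826.ZG.rd W * Pool.Agent.Y826.Z.Pr q) :=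
        (Pool.Agent.Q66.LD.mem_TT.1 hq).2
      have h1 := hbq q hsq
      congr 1
      congr 1
      unfold err Pool.Agent.Q66.LD.psiErr Pool.Agent.Y826.Z.Pr
      congr 1
      refine Finset.sum_congr (Finset.filter_congr fun n _ => ?_) fun _ _ => rfl
      exact (h1 n).symm
  exact ⟨main, fun ε hε t R ht hR hS hs => main t ht (Pool.Agent.Q66.LD.goodT_struct hε t ht R hR hS hs)⟩

end Pool.Agent.Results.MP_00e23e_nt.SeveralForms
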