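import Pool.Agent.Q26.LV.E

/-!
# Level of distribution `1 - ε` for residue classes which depend on the modulus, near random sums and near integers
with restricted digits

From Mathlib: `ArithmeticFunction.vonMangoldt`: the function `Λ`; `Nat.totient`: Euler's function `φ`.
-/

set_option autoImplicit false

namespace Pool.Agent.Results.MP_00e23e_nt.VaryingResidues

open Finset

/-- `ψ(x; q, a)`: the sum of `Λ(n)` over the `n ≤ x` with `n ≡ a (mod q)`. -/
noncomputable def psi (x q a : ℕ) : ℝ :=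
  ∑ n ∈ (Icc 1 x).filter (fun n => n ≡ a [MOD q]), ArithmeticFunction.vonMangoldt n

/-- The sum of `λ(q) (ψ(x; q, a + h(q)) - x / φ(q))` over the `q ≤ Q` coprime to `a + h(q)` (`a + h(q)` is nonnegative
where this is used). -/
noncomputable def varying (lam : ℕ → ℝ) (h : ℕ → ℤ) (Q x : ℕ) (a : ℤ) : ℝ :=
  ∑ q ∈ (Icc 1 Q).filter (fun q => (a + h q).toNat.Coprime q),
    lam q * (psi x q (a + h q).toNat - (x : ℝ) / Nat.totient q)

/-- If `a > log ^ V X`, then the primes have the level of distribution `1 - ε` in the residue classes of the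
`a + h_l(q)`, with the weights `λ_l(q)`, for the `L` systems of weights and displacements: the sum of
`λ_l(q) (ψ(y; q, a + h_l(q)) - y / φ(q))` over the `q ≤ X ^ (1 - ε)` coprime to `a + h_l(q)` has absolute value at most
`X / log ^ U X`, for all `l < L` and all `y ≤ B X`. -/
def Level (B U V X : ℕ) (ε : ℝ) {L : ℕ} (lam : Fin L → ℕ → ℝ) (h : Fin L → ℕ → ℤ) (a : ℤ) : Prop :=
  Real.log X ^ V < (a : ℝ) →
    ∀ l, ∀ y ≤ B * X, |varying (lam l) (h l) ⌊(X : ℝ) ^ (1 - ε)⌋₊ y a| ≤ X / Real.log X ^ U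

/-- The set `J` of scales below `k` is rich: it contains more than three fifths of all the scales, more than one half
of the `m` lowest scales, and a positive proportion of the `m` highest scales (the last two conditions are
void for `m ≤ R log k`). -/
structure Rich (δ : ℝ) (R k : ℕ) (J : Finset ℕ) : Prop where
  lt : ∀ j ∈ J, j < k
  all : (3 / 5 + δ) * k ≤ (J.card : ℝ)
  low : ∀ m ≤ k, (1 / 2 + δ) * m ≤ ((J.filter fun j => j < m).card : ℝ) + R * Real.log k
  high : ∀ m ≤ k, δ * m ≤ ((J.filter fun j => k - m ≤ j).card : ℝ) + R * Real.log k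

open Classical in
/-- The probability of the event `E` if `x 0, ..., x (k - 1)` are independent random integers, where `x j` takes
its values in the finite set `S j`, and the value `x` with the probability `p j x`. -/
noncomputable def Prob (k : ℕ) (S : ℕ → Finset ℤ) (p : ℕ → ℤ → ℝ) (E : (Fin k → ℤ) → Prop) : ℝ :=
  ∑ x ∈ Fintype.piFinset (fun j : Fin k => S j), if E x then ∏ j : Fin k, p j (x j) else 0

open Classical in
/-- Let `b ≥ 2`, `B ≥ 1`, `R`, `T`, `U`, `V`, `η > 0`, `δ > 0` and `ε > 0` be fixed, let `X` be large, let `b ^ k` be between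
`X / B` and `B X`, and let `J` be an arbitrary rich set of scales below `k`. Let `c` be an arbitrary integer with
`|c| ≤ B X`, and for `l < L`, `L ≤ log ^ T X`, let `λ_l(q)` be arbitrary coefficients with `|λ_l(q)| ≤ log ^ T X` and
`h_l(q)` ARBITRARY integers with `|h_l(q)| ≤ log ^ V X`. (1) Let `x 0, ..., x (k - 1)` be arbitrary independent random
integers with `|x j| ≤ B b ^ j` such that, for all `j` in `J`, no interval of the length `b ^ j / B` contains `x j` with a
probability larger than `1 - η` (nothing is assumed for the other `j`: these `x j` may be constants). Then, with a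
probability of at least `1 - 1 / log ^ U X`, the number `a = c + x 0 + ... + x (k - 1)` has the property `Level`: the
primes have the level of distribution `1 - ε` in the residue classes `a + h_l(q)` modulo `q`, which depend on the
modulus. (2) Let `A 0, ..., A (k - 1)` be arbitrary nonempty sets of digits in base `b`, such that `A j` has at least two
elements if `j` is in `J` (the other digits may be prescribed). Then the same is true for `a = c + v` for all the
integers `v < b ^ k` whose digit at the place `j` belongs to `A j` for all `j < k`, with at most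
`(#A 0 ⋯ #A (k - 1)) / log ^ U X` exceptions. -/
theorem result (b B R T U V : ℕ) (hb : 2 ≤ b) (hB : 1 ≤ B) (η δ ε : ℝ) (hη : 0 < η) (hδ : 0 < δ) (hε : 0 < ε) :
    ∃ X₀ : ℕ, ∀ X, X₀ ≤ X → ∀ k : ℕ, X ≤ B * b ^ k → b ^ k ≤ B * X → ∀ J : Finset ℕ, Rich δ R k J →
      ∀ c : ℤ, |c| ≤ (B : ℤ) * X → ∀ L : ℕ, (L : ℝ) ≤ Real.log X ^ T →
      ∀ lam : Fin L → ℕ → ℝ, (∀ l q, |lam l q| ≤ Real.log X ^ T) →
      ∀ h : Fin L → ℕ → ℤ, (∀ l q, |((h l q : ℤ) : ℝ)| ≤ Real.log X ^ V) →
      (∀ (S : ℕ → Finset ℤ) (p : ℕ → ℤ → ℝ),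
        (∀ j < k, (∀ x ∈ S j, 0 ≤ p j x ∧ |x| ≤ (B : ℤ) * (b : ℤ) ^ j) ∧ ∑ x ∈ S j, p j x = 1) →
        (∀ j ∈ J, ∀ y : ℤ, ∑ x ∈ (S j).filter (fun x => y ≤ x ∧ (B : ℤ) * (x - y) ≤ (b : ℤ) ^ j), p j x ≤ 1 - η) →
        Prob k S p (fun x => ¬ Level B U V X ε lam h (c + ∑ j, x j)) ≤ 1 / Real.log X ^ U) ∧
      (∀ A : ℕ → Finset ℕ, (∀ j < k, (A j).Nonempty ∧ ∀ a ∈ A j, a < b) → (∀ j ∈ J, 2 ≤ (A j).card) →
        (((range (b ^ k)).filter fun v =>
            (∀ j < k, v / b ^ j % b ∈ A j) ∧ ¬ Level B U V X ε lam h (c + (v : ℤ))).card : ℝ) ≤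
          (∏ j ∈ range k, ((A j).card : ℝ)) / Real.log X ^ U) := by
  obtain ⟨X₁, h1⟩ := Pool.Agent.Q26.LV.lv_vary b hb B R T U V hB η δ ε hη hδ hε
  obtain ⟨X₂, h2⟩ := Pool.Agent.Q26.LV.lv_vary b hb (B + b) R T U V (by omega) (1 / 2) δ ε (by norm_num) hδ hε
  refine ⟨X₁ + X₂, fun X hX k hk1 hk2 J hJ c hc L hL lam hlam h hh => ⟨fun S p hp hsp => ?_, fun A hA hAJ => ?_⟩⟩
  · have h3 := h1 X (by omega) k hk1 hk2 J S p ⟨hJ.lt, hJ.low, hJ.high, hJ.all⟩ hp
      (fun j hj y => by rw [← sum_filter]; exact hsp j hj y) c hc L hL lam hlam h hh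
    refine le_trans (le_of_eq ?_) h3
    unfold Prob
    apply sum_congr rfl
    intro x _
    have e : (¬ Level B U V X ε lam h (c + ∑ j, x j)) = ¬ (Real.log X ^ V < ((c + ∑ j, x j : ℤ) : ℝ) → ∀ l, ∀ y ≤ B * X,
      |Pool.Agent.Q26.LV.VS (lam l) (h l) ε X y (c + ∑ j, x j)| ≤ X / Real.log X ^ U) := rfl
    simp only [e]
  · have hBB : B ≤ B + b := by omega
    have h4 := Pool.Agent.Q26.LV.digits_transfer b (B + b) k hb (by omega) J A hA hAJ (fun v => ¬ Level B U V X ε lam h (c + v))
      (1 / Real.log X ^ U) (fun S p hp hsp => by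
        have h3 := h2 X (by omega) k (hk1.trans (Nat.mul_le_mul_right _ hBB)) (hk2.trans (Nat.mul_le_mul_right _ hBB)) J S p
          ⟨hJ.lt, hJ.low, hJ.high, hJ.all⟩ hp hsp c
          (hc.trans (by exact_mod_cast Nat.mul_le_mul_right X hBB)) L hL lam hlam h hh
        refine le_trans (sum_le_sum fun x hx => ?_) h3
        have hx0 : 0 ≤ ∏ j : Fin k, p j (x j) := by
          rw [Fintype.mem_piFinset] at hx
          exact prod_nonneg fun j _ => ((hp j j.2).1 _ (hx j)).1
        by_cases hg : Real.log X ^ V < ((c + ∑ j, x j : ℤ) : ℝ) → ∀ l, ∀ y ≤ (B + b) * X,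
            |Pool.Agent.Q26.LV.VS (lam l) (h l) ε X y (c + ∑ j, x j)| ≤ X / Real.log X ^ U
        · have : Level B U V X ε lam h (c + ∑ j, x j) := fun hpos l y hy => hg hpos l y (hy.trans (Nat.mul_le_mul_right _ hBB))
          rw [if_neg (not_not.2 this), if_neg (not_not.2 hg)]
        · rw [if_pos hg]
          split_ifs
          · exact hx0
          · exact le_rfl)
    rw [mul_one_div] at h4
    convert h4

end Pool.Agent.Results.MP_00e23e_nt.VaryingResidues
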