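import Pool.Agent.TH646.LV.Level
import Pool.Agent.Q56.TF.Base

/-!
# Level of distribution `N exp (-K (log log N) ^ 2)` for all residues in windows around almost all members of a
real sequence

The residues are all the integers at a distance of at most `log ^ A N` from `r m`, for almost all `m ≤ x`, where
`r 1, ..., r x` is an arbitrary family of real numbers of nearly minimal energy; for instance the (real) values
`β + α f m` of a polynomial `f` with integer coefficients, with arbitrary real `α ≠ 0` and `β`, or of a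
generalised polynomial `f t = ∑ a_y t ^ y` whose largest exponent is greater than `1` and not an integer
(`f t = t ^ c`: the sequences of Piatetski-Shapiro).

From Mathlib: `ArithmeticFunction.vonMangoldt`: the function `Λ`; `Nat.totient`: Euler's function;
`Polynomial ℤ`, `f.eval m`: polynomials and their values. The bound for families of integers is from the starting
files (`Pool.Agent.TH646.LV.lv_fam`).
-/

set_option autoImplicit false

namespace Pool.Agent.Results.MP_00e23e_nt.WindowsAroundRealSequences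

open Finset

open Classical in
/-- The energy of order `p` of the family of real numbers `r 1, ..., r x`: the number of the pairs `v`, `w` of
`p`-tuples of elements of `{1, ..., x}` such that `r (v 1) + ... + r (v p)` and `r (w 1) + ... + r (w p)` differ
by at most `1`. -/
noncomputable def energy (p x : ℕ) (r : ℕ → ℝ) : ℕ :=
  (((Fintype.piFinset fun _ : Fin p => Icc 1 x) ×ˢ (Fintype.piFinset fun _ : Fin p => Icc 1 x)).filter
    (fun q => |∑ i, r (q.1 i) - ∑ i, r (q.2 i)| ≤ 1)).card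

/-- `ψ(y; q, a)`: the sum of `Λ(n)` over the `n ≤ y` with `n ≡ a (mod q)`. -/
noncomputable def psi (y q a : ℕ) : ℝ :=
  ∑ n ∈ (Icc 1 y).filter (fun n => n ≡ a [MOD q]), ArithmeticFunction.vonMangoldt n

/-- The sum of `λ(q) (ψ(y; q, a) - y / φ(q))` over the `q ≤ Q` coprime to `a`. -/
noncomputable def weighted (lam : ℕ → ℝ) (Q y a : ℕ) : ℝ :=
  ∑ q ∈ (Icc 1 Q).filter (fun q => a.Coprime q), lam q * (psi y q a - (y : ℝ) / Nat.totient q)

/-- The level `N exp (-K (log log N) ^ 2)`, rounded down. -/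
noncomputable def level (K N : ℕ) : ℕ := ⌊(N : ℝ) * Real.exp (-(K * Real.log (Real.log N) ^ 2))⌋₊

/-- The residue `a` is good for the systems of coefficients `lam l`: the weighted sums over the moduli up to the
level `level K N` are at most `N / log ^ U N`, for all `l` and all `y ≤ B N`. -/
def Good (B U K N : ℕ) {L : ℕ} (lam : Fin L → ℕ → ℝ) (a : ℕ) : Prop :=
  ∀ l, ∀ y ≤ B * N, |weighted (lam l) (level K N) y a| ≤ N / Real.log N ^ U

open Classical in
/-- The number of the `m` in `{1, ..., x}` for which not all positive integers `a` at a distance of at most `w`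
from `r m` have the property `G`. -/
noncomputable def exceptions (x : ℕ) (r : ℕ → ℝ) (w : ℝ) (G : ℕ → Prop) : ℕ :=
  ((Icc 1 x).filter (fun m => ∃ a : ℕ, 0 < a ∧ |(a : ℝ) - r m| ≤ w ∧ ¬ G a)).card

/-- The bound at scale `N` for the windows around the `r m`, `m ≤ x`: for any `L ≤ log ^ T N` systems of
coefficients bounded by `log ^ T N`, for all `m ≤ x` with at most `x / log ^ U N` exceptions all positive integers
`a` with `|a - r m| ≤ log ^ A N` are good residues. -/
def Holds (A B T U K N x : ℕ) (r : ℕ → ℝ) : Prop :=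
  ∀ L : ℕ, (L : ℝ) ≤ Real.log N ^ T → ∀ lam : Fin L → ℕ → ℝ, (∀ l q, |lam l q| ≤ Real.log N ^ T) →
    (exceptions x r (Real.log N ^ A) (Good B U K N lam) : ℝ) ≤ x / Real.log N ^ U

/-- The sequence `f`, of growth `x ^ c`, has the property at all large scales: for all `x` with
`N / log ^ C N ≤ x ^ c ≤ B N` and all translates `β + f m`, `|β| ≤ B N`. -/
def Sequence (A B C T U : ℕ) (f : ℕ → ℝ) (c : ℝ) : Prop :=
  ∃ K N₀ : ℕ, ∀ N : ℕ, N₀ ≤ N → ∀ x : ℕ, (x : ℝ) ^ c ≤ B * N → (N : ℝ) ≤ Real.log N ^ C * (x : ℝ) ^ c →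
    ∀ β : ℝ, |β| ≤ B * N → Holds A B T U K N x (fun m => β + f m)

open Pool.Agent.H373R2.T7 in
lemma general (p B C T U : ℕ) : ∃ K N₀ : ℕ, ∀ N : ℕ, N₀ ≤ N →
    ∀ (x : ℕ) (s : ℕ → ℤ), (∀ m ∈ Icc 1 x, |s m| ≤ B * N) →
    (Pool.Agent.H373R2.T7.energy p x s : ℝ) * N ≤ Real.log N ^ C * (x : ℝ) ^ (2 * p) →
    ∀ L : ℕ, (L : ℝ) ≤ Real.log N ^ T → ∀ lam : Fin L → ℕ → ℝ, (∀ l q, |lam l q| ≤ Real.log N ^ T) →
    ∀ S : Finset ℕ, S ⊆ Icc 1 x → (∀ m ∈ S, 0 < s m ∧ ¬ Good B U K N lam (s m).toNat) →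
      (S.card : ℝ) ≤ x / Real.log N ^ U := by
  classical
  obtain ⟨K, N₀, h0⟩ := Pool.Agent.TH646.LV.lv_fam p B C T (T + U)
  refine ⟨K, N₀ + 3, fun N hN x s hs hE L hL lam hlam S hS hSb => ?_⟩
  have hlog1 : 1 ≤ Real.log N := by
    rw [Real.le_log_iff_exp_le (by exact_mod_cast (by omega : 0 < N))]
    have : (3 : ℝ) ≤ N := by exact_mod_cast (by omega : 3 ≤ N)
    linarith [Real.exp_one_lt_d9]
  have hlog0 : 0 < Real.log N := by linarith
  have h1 : ∀ l : Fin L, ((S.filter (fun m => ∃ y ≤ B * N,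
      N / Real.log N ^ U < |weighted (lam l) (level K N) y (s m).toNat|)).card : ℝ) ≤ x / Real.log N ^ (T + U) := by
    intro l
    refine h0 N (by omega) x s hs hE (lam l) (hlam l) (level K N) (Nat.floor_le (by positivity)) _
      ((filter_subset _ _).trans hS) ?_
    intro m hm
    obtain ⟨hmS, y, hy, h4⟩ := mem_filter.1 hm
    refine ⟨(hSb m hmS).1, y, hy, lt_of_le_of_lt ?_ h4⟩
    apply div_le_div_of_nonneg_left (Nat.cast_nonneg _) (by positivity)
    exact pow_le_pow_right₀ hlog1 (by omega)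
  have hcov : S ⊆ (univ : Finset (Fin L)).biUnion (fun l => S.filter (fun m => ∃ y ≤ B * N,
      N / Real.log N ^ U < |weighted (lam l) (level K N) y (s m).toNat|)) := by
    intro m hm
    have h2 := (hSb m hm).2
    unfold Good at h2
    push Not at h2
    obtain ⟨l, y, hy, h3⟩ := h2
    rw [mem_biUnion]
    exact ⟨l, mem_univ _, mem_filter.2 ⟨hm, y, hy, h3⟩⟩
  calc (S.card : ℝ) ≤ (∑ l : Fin L, (S.filter (fun m => ∃ y ≤ B * N,
      N / Real.log N ^ U < |weighted (lam l) (level K N) y (s m).toNat|)).card : ℕ) := by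
        exact_mod_cast (card_le_card hcov).trans card_biUnion_le
    _ ≤ ∑ _l : Fin L, (x : ℝ) / Real.log N ^ (T + U) := by
        push_cast
        exact sum_le_sum fun l _ => h1 l
    _ = L * (x / Real.log N ^ (T + U)) := by
        rw [sum_const, card_univ, Fintype.card_fin, nsmul_eq_mul]
    _ ≤ Real.log N ^ T * (x / Real.log N ^ (T + U)) := mul_le_mul_of_nonneg_right hL (by positivity)
    _ = x / Real.log N ^ U := by
        rw [pow_add]
        field_simp

lemma holds_of {A B B' T U K N x p C' : ℕ} (hBB : B ≤ B') (r : ℕ → ℝ)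
    (hgen : ∀ s : ℕ → ℤ, (∀ m ∈ Icc 1 x, |s m| ≤ B' * N) →
      (Pool.Agent.H373R2.T7.energy p x s : ℝ) * N ≤ Real.log N ^ C' * (x : ℝ) ^ (2 * p) →
      ∀ L : ℕ, (L : ℝ) ≤ Real.log N ^ T → ∀ lam : Fin L → ℕ → ℝ, (∀ l q, |lam l q| ≤ Real.log N ^ T) →
      ∀ S : Finset ℕ, S ⊆ Icc 1 x → (∀ m ∈ S, 0 < s m ∧ ¬ Good B' U K N lam (s m).toNat) →
        (S.card : ℝ) ≤ x / Real.log N ^ U)
    (hm : ∀ P : ℤ → Prop, ∃ s : ℕ → ℤ, (∀ m ∈ Icc 1 x, |s m| ≤ B' * N) ∧
      (Pool.Agent.H373R2.T7.energy p x s : ℝ) * N ≤ Real.log N ^ C' * (x : ℝ) ^ (2 * p) ∧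
      ∀ m, (∃ a : ℤ, |(a : ℝ) - r m| ≤ Real.log N ^ A ∧ P a) → P (s m)) : Holds A B T U K N x r := by
  classical
  intro L hL lam hlam
  obtain ⟨s, h1, h2, h3⟩ := hm (fun a => 0 < a ∧ ¬ Good B U K N lam a.toNat)
  unfold exceptions
  apply hgen s h1 h2 L hL lam hlam _ (filter_subset _ _)
  intro m hm
  obtain ⟨hm1, a, ha1, ha2, ha3⟩ := mem_filter.1 hm
  obtain ⟨h4, h5⟩ := h3 m ⟨a, by exact_mod_cast ha2, by exact_mod_cast ha1, by simpa using ha3⟩
  refine ⟨h4, fun h6 => h5 fun l y hy => h6 l y (hy.trans (Nat.mul_le_mul_right _ hBB))⟩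

lemma sequence_of {f : ℕ → ℝ} {c : ℝ} (h : Pool.Agent.Q56.TF.Base f c) (hc : 1 ≤ c) (A B C T U : ℕ) :
    Sequence A B C T U f c := by
  obtain ⟨p, B', C', N₀, h1⟩ := Pool.Agent.Q56.TF.master h hc A B C
  obtain ⟨K, N₁, h2⟩ := general p (B + B') C' T U
  refine ⟨K, N₀ + N₁, fun N hN x hx1 hx2 β hβ => ?_⟩
  refine holds_of (B' := B + B') (p := p) (C' := C') (by omega) _ (fun s hs hE => h2 N (by omega) x s hs hE) ?_
  intro P
  obtain ⟨s, h3, h4, h5⟩ := h1 N (by omega) x hx1 hx2 β hβ P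
  refine ⟨s, fun m hm => (h3 m hm).trans ?_, h4, h5⟩
  have : (0 : ℤ) ≤ B * N := by positivity
  push_cast
  linarith

/-- Let `A`, `B`, `C`, `T`, `U` be fixed.

* For every `p` there is a `K` such that for all large `N` the following holds. Let `r 1, ..., r x` be an arbitrary
  family of real numbers in `[-B N, B N]` with an energy of order `p` of at most `log ^ C N` times `x ^ (2 p) / N`
  (the minimal possible order of magnitude). Let at most `log ^ T N` systems of coefficients `λ_l(q)` with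
  `|λ_l(q)| ≤ log ^ T N` be given. For all `m ≤ x` with at most `x / log ^ U N` exceptions, ALL positive integers
  `a` with `|a - r m| ≤ log ^ A N` satisfy: for all `l` and all `y ≤ B N` the sum of
  `λ_l(q) (ψ(y; q, a) - y / φ(q))` over the `q ≤ N exp (-K (log log N) ^ 2)` coprime to `a` has absolute value at
  most `N / log ^ U N`.
* This holds for `r m = β + α f m`, `m ≤ x`, where `f` is a fixed nonconstant polynomial with integer
  coefficients, of degree `d`, `α ≠ 0` is a fixed real number, `β` is any real number with `|β| ≤ B N`, and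
  `N / log ^ C N ≤ x ^ d ≤ B N`.
* This holds for `r m = β + ∑ a_y m ^ y` (a sum over a finite set `F` of real exponents `y`), if the largest
  exponent `c` is greater than `1` and not an integer, `a_c ≠ 0`, `|β| ≤ B N` and `N / log ^ C N ≤ x ^ c ≤ B N`; for
  instance for `r m = β + m ^ c`. -/
theorem result (A B C T U : ℕ) :
    (∀ p : ℕ, ∃ K N₀ : ℕ, ∀ N : ℕ, N₀ ≤ N → ∀ (x : ℕ) (r : ℕ → ℝ), (∀ m ∈ Icc 1 x, |r m| ≤ B * N) →
      (energy p x r : ℝ) * N ≤ Real.log N ^ C * (x : ℝ) ^ (2 * p) → Holds A B T U K N x r) ∧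
    (∀ f : Polynomial ℤ, 1 ≤ f.natDegree → ∀ α : ℝ, α ≠ 0 →
      Sequence A B C T U (fun m => α * ((f.eval (m : ℤ) : ℤ) : ℝ)) f.natDegree) ∧
    (∀ (F : Finset ℝ) (a : ℝ → ℝ) (c : ℝ), c ∈ F → (∀ y ∈ F, y ≤ c) → a c ≠ 0 → 1 < c → (∀ k : ℕ, c ≠ k) →
      Sequence A B C T U (fun m => ∑ y ∈ F, a y * (m : ℝ) ^ y) c) := by
  classical
  refine ⟨fun p => ?_, fun f hd α hα => ?_, fun F a c hcF hmax hac hc hcn => ?_⟩
  · obtain ⟨B', C', N₀, h1⟩ := Pool.Agent.Q56.TF.master_gen p A B C
    obtain ⟨K, N₁, h2⟩ := general p (B + B') C' T U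
    refine ⟨K, N₀ + N₁, fun N hN x r hr hE => ?_⟩
    refine holds_of (B' := B + B') (p := p) (C' := C') (by omega) _ (fun s hs hE => h2 N (by omega) x s hs hE) ?_
    intro P
    obtain ⟨s, h3, h4, h5⟩ := h1 N (by omega) x r hr hE P
    refine ⟨s, fun m hm => (h3 m hm).trans ?_, h4, h5⟩
    have : (0 : ℤ) ≤ B * N := by positivity
    push_cast
    linarith
  · exact sequence_of ((Pool.Agent.Q56.TF.base_poly f hd).dil hα) (by exact_mod_cast hd) A B C T U
  · exact sequence_of (Pool.Agent.Q56.TF.base_gp F a c hcF hmax hac hc hcn) hc.le A B C T U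

end Pool.Agent.Results.MP_00e23e_nt.WindowsAroundRealSequences
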